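import Mathlib

/-! Omega-primality of the generators of numerical monoids generated by an interval. -/

set_option autoImplicit false

namespace Q191.Omega

/-- The numerical monoid generated by `n, n + 1, …, n + k`. -/
def Gam (n k : ℕ) : AddSubmonoid ℕ := AddSubmonoid.closure (Set.Icc n (n + k))

/-- `x` divides `y` in the additive monoid `Γ`. -/
def Dvd (Γ : AddSubmonoid ℕ) (x y : ℕ) : Prop := ∃ z ∈ Γ, y = x + z

/-- The defining property of the numbers `m ≥ ω(x)`: whenever `x` divides a finite sum of elements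
of `Γ`, it divides a subsum with at most `m` terms. -/
def OmegaProp (Γ : AddSubmonoid ℕ) (x m : ℕ) : Prop :=
  ∀ (r : ℕ) (a : Fin r → ℕ), (∀ j, a j ∈ Γ) → Dvd Γ x (∑ j, a j) →
    ∃ T : Finset (Fin r), T.card ≤ m ∧ Dvd Γ x (∑ j ∈ T, a j)

/-- `ω(x)`: the least `m` with the defining property. -/
noncomputable def omega (Γ : AddSubmonoid ℕ) (x : ℕ) : ℕ := sInf {m | OmegaProp Γ x m}

/-- The value of `ω(n + i)` in the monoid generated by `n, …, n + k`, in terms of the quotient `q`
and the remainder `r` of `n - 1` modulo `k`. -/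
def value (n k i : ℕ) : ℕ :=
  if i = 0 then
    if (n - 1) % k = 0 ∨ ((n - 1) % k = 1 ∧ k % ((n - 1) / k + 1) ≠ 1) then (n - 1) / k + 1
    else (n - 1) / k + 2
  else
    if (n - 1) % k = 0 ∨ ((n - 1) % k = 1 ∧ i % ((n - 1) / k + 2) ≠ 1) then (n - 1) / k + 2
    else (n - 1) / k + 3

theorem mem_of {n k : ℕ} (m : ℕ) : ∀ y, m * n ≤ y → y ≤ m * (n + k) → y ∈ Gam n k := by
  induction m with
  | zero =>
    intro y _ h
    have : y = 0 := by omega
    rw [this]; exact zero_mem _
  | succ m ih =>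
    intro y h1 h2
    rw [Nat.succ_mul] at h1 h2
    by_cases h : y ≤ m * n + (n + k)
    · have hg : y - m * n ∈ Gam n k :=
        AddSubmonoid.subset_closure ⟨by omega, by omega⟩
      have hm : m * n ∈ Gam n k := ih _ le_rfl (Nat.mul_le_mul_left _ (by omega))
      have := add_mem hm hg
      rwa [Nat.add_sub_cancel' (by omega)] at this
    · have hg : n + k ∈ Gam n k := AddSubmonoid.subset_closure ⟨by omega, le_rfl⟩
      have hm : y - (n + k) ∈ Gam n k := ih _ (by omega) (by omega)
      have := add_mem hm hg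
      rwa [Nat.sub_add_cancel (by omega)] at this

theorem mem_iff {n k y : ℕ} : y ∈ Gam n k ↔ ∃ m, m * n ≤ y ∧ y ≤ m * (n + k) := by
  constructor
  · intro h
    induction h using AddSubmonoid.closure_induction with
    | mem x hx => exact ⟨1, by simpa using hx.1, by simpa using hx.2⟩
    | zero => exact ⟨0, by simp, by simp⟩
    | add x y _ _ hx hy =>
      obtain ⟨m, h1, h2⟩ := hx
      obtain ⟨m', h3, h4⟩ := hy
      exact ⟨m + m', by rw [Nat.add_mul]; omega, by rw [Nat.add_mul]; omega⟩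
  · rintro ⟨m, h1, h2⟩
    exact mem_of m y h1 h2

theorem not_mem {n k y : ℕ} (m : ℕ) (h1 : m * (n + k) < y) (h2 : y < (m + 1) * n) :
    y ∉ Gam n k := by
  rw [mem_iff]
  rintro ⟨m', h3, h4⟩
  rcases Nat.lt_or_ge m m' with h | h
  · have := Nat.mul_le_mul_right n (show m + 1 ≤ m' from h)
    omega
  · have := Nat.mul_le_mul_right (n + k) h
    omega

theorem big {n k q y : ℕ} (hn : 0 < n) (hq : n ≤ (q + 1) * k) (h : (q + 1) * n ≤ y) :
    y ∈ Gam n k := by
  have h1 : q + 1 ≤ y / n := (Nat.le_div_iff_mul_le hn).2 h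
  have h2 : y < (y / n + 1) * n := by
    rw [Nat.add_mul, one_mul]
    exact Nat.lt_div_mul_add hn
  have h3 := Nat.mul_le_mul_right k h1
  refine mem_of (y / n) y (Nat.div_mul_le_self y n) ?_
  rw [Nat.mul_add]
  rw [Nat.add_mul, one_mul] at h2
  omega

theorem Dvd.add {Γ : AddSubmonoid ℕ} {x y z : ℕ} (h : Dvd Γ x y) (hz : z ∈ Γ) :
    Dvd Γ x (y + z) := by
  obtain ⟨w, hw, rfl⟩ := h
  exact ⟨w + z, add_mem hw hz, by omega⟩

/-- lower bounds come from families without proper divisible subfamilies -/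
theorem lower {Γ : AddSubmonoid ℕ} {x V : ℕ} (a : Fin V → ℕ) (ha : ∀ j, a j ∈ Γ)
    (h1 : Dvd Γ x (∑ j, a j)) (h2 : ∀ j, ¬ Dvd Γ x (∑ l ∈ Finset.univ.erase j, a l)) {m : ℕ}
    (hm : OmegaProp Γ x m) : V ≤ m := by
  by_contra hlt
  obtain ⟨T, hT, hd⟩ := hm V a ha h1
  have hne : ∃ j, j ∉ T := by
    by_contra hall
    push Not at hall
    have : T = Finset.univ := Finset.eq_univ_iff_forall.2 hall
    rw [this, Finset.card_univ, Fintype.card_fin] at hT
    omega
  obtain ⟨j, hj⟩ := hne
  have hsub : T ⊆ Finset.univ.erase j := fun l hl =>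
    Finset.mem_erase.2 ⟨fun h => hj (h ▸ hl), Finset.mem_univ _⟩
  apply h2 j
  rw [← Finset.sum_sdiff hsub, add_comm]
  exact hd.add (sum_mem fun l _ => ha l)

/-- upper bounds: it suffices to bound the minimal families -/
theorem upper {Γ : AddSubmonoid ℕ} {x V : ℕ}
    (h : ∀ (r : ℕ) (a : Fin r → ℕ) (T : Finset (Fin r)), (∀ j, a j ∈ Γ) →
      Dvd Γ x (∑ j ∈ T, a j) → (∀ j ∈ T, ¬ Dvd Γ x (∑ l ∈ T.erase j, a l)) → T.card ≤ V) :
    OmegaProp Γ x V := by
  classical
  intro r a ha hd
  obtain ⟨T, hT, hmin⟩ := Finset.exists_min_image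
    ((Finset.univ : Finset (Finset (Fin r))).filter fun T => Dvd Γ x (∑ j ∈ T, a j))
    (fun T => T.card) ⟨Finset.univ, by simpa using hd⟩
  rw [Finset.mem_filter] at hT
  refine ⟨T, h r a T ha hT.2 ?_, hT.2⟩
  intro j hj hdj
  have := hmin (T.erase j) (by rw [Finset.mem_filter]; exact ⟨Finset.mem_univ _, hdj⟩)
  rw [Finset.card_erase_of_mem hj] at this
  have h0 : 0 < T.card := Finset.card_pos.2 ⟨j, hj⟩
  omega

/-- The data of a minimal family: a finite type of terms `n + b j`. -/
theorem min_family {n k i r : ℕ} {a : Fin r → ℕ} {T : Finset (Fin r)}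
    (ha : ∀ j, a j ∈ Gam n k) (hd : Dvd (Gam n k) (n + i) (∑ j ∈ T, a j))
    (hmin : ∀ j ∈ T, ¬ Dvd (Gam n k) (n + i) (∑ l ∈ T.erase j, a l)) :
    ∃ b : Fin r → ℕ, (∀ j ∈ T, a j = n + b j) ∧
      ∀ j ∈ T, ∀ z ∈ Gam n k, (T.card - 1) * n + ∑ l ∈ T.erase j, b l ≠ n + i + z := by
  have h1 : ∀ j ∈ T, n ≤ a j := by
    intro j hj
    by_contra hlt
    obtain ⟨m, hm1, hm2⟩ := mem_iff.1 (ha j)
    have hm0 : m = 0 := by
      by_contra hne
      have := Nat.mul_le_mul_right n (Nat.one_le_iff_ne_zero.2 hne)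
      omega
    rw [hm0, Nat.zero_mul] at hm2
    apply hmin j hj
    rw [← Finset.add_sum_erase T a hj] at hd
    have h0 : a j = 0 := by omega
    rwa [h0, zero_add] at hd
  refine ⟨fun j => a j - n, fun j hj => (Nat.add_sub_cancel' (h1 j hj)).symm, ?_⟩
  intro j hj z hz he
  apply hmin j hj
  refine ⟨z, hz, ?_⟩
  rw [← he]
  have h2 : ∑ l ∈ T.erase j, a l = ∑ l ∈ T.erase j, (n + (a l - n)) := by
    apply Finset.sum_congr rfl
    intro l hl
    have := h1 l (Finset.mem_of_mem_erase hl)
    omega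
  rw [h2, Finset.sum_add_distrib, Finset.sum_const, Finset.card_erase_of_mem hj, smul_eq_mul]

variable {n k q r : ℕ}

/-- all minimal families have at most `q + 3` terms -/
theorem card_le {i s : ℕ} (hn : n = q * k + r + 1) (hq : 1 ≤ q) (hr : r < k) (hi : i ≤ k)
    {a : Fin s → ℕ} {T : Finset (Fin s)} (ha : ∀ j, a j ∈ Gam n k)
    (hd : Dvd (Gam n k) (n + i) (∑ j ∈ T, a j))
    (hmin : ∀ j ∈ T, ¬ Dvd (Gam n k) (n + i) (∑ l ∈ T.erase j, a l)) : T.card ≤ q + 3 := by
  by_contra hlt
  push Not at hlt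
  obtain ⟨b, hb, hz⟩ := min_family ha hd hmin
  have hne : T.Nonempty := Finset.card_pos.1 (by omega)
  obtain ⟨j, hj⟩ := hne
  have hqk : (q + 1) * k = q * k + k := by ring
  have e1 := Nat.mul_le_mul_right n (show q + 3 ≤ T.card - 1 by omega)
  have e2 : (q + 3) * n = (q + 1) * n + n + n := by ring
  have hkn : k ≤ n := by
    have := Nat.mul_le_mul_right k hq
    omega
  refine hz j hj ((T.card - 1) * n + ∑ l ∈ T.erase j, b l - (n + i)) ?_ (by omega)
  exact big (q := q) (by omega) (by omega) (by omega)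

/-- minimal families with `q + 3` terms -/
theorem card_eq {i s : ℕ} (hn : n = q * k + r + 1) (hq : 1 ≤ q) (hr : r < k) (hi : i ≤ k)
    {a : Fin s → ℕ} {T : Finset (Fin s)} (ha : ∀ j, a j ∈ Gam n k)
    (hd : Dvd (Gam n k) (n + i) (∑ j ∈ T, a j))
    (hmin : ∀ j ∈ T, ¬ Dvd (Gam n k) (n + i) (∑ l ∈ T.erase j, a l)) (hT : T.card = q + 3) :
    1 ≤ i ∧ (2 ≤ r ∨ (r = 1 ∧ i % (q + 2) = 1)) := by
  obtain ⟨b, hb, hz⟩ := min_family ha hd hmin
  have hne : T.Nonempty := Finset.card_pos.1 (by omega)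
  have hqk : (q + 1) * k = q * k + k := by ring
  have e2 : (T.card - 1) * n = (q + 1) * n + n := by rw [hT]; simp; ring
  have e3 : (q + 1) * n = q * n + n := by ring
  have e4 : q * (n + k) = q * n + q * k := by ring
  have hkn : k ≤ n := by
    have := Nat.mul_le_mul_right k hq
    omega
  have key : ∀ j ∈ T, ∑ l ∈ T.erase j, b l < i ∧ i ≤ ∑ l ∈ T.erase j, b l + r := by
    intro j hj
    constructor
    · by_contra h
      push Not at h
      refine hz j hj ((q + 1) * n + ∑ l ∈ T.erase j, b l - i) ?_ (by omega)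
      exact big (q := q) (by omega) (by omega) (by omega)
    · by_contra h
      push Not at h
      refine hz j hj ((q + 1) * n + ∑ l ∈ T.erase j, b l - i) ?_ (by omega)
      exact mem_of q _ (by omega) (by omega)
  obtain ⟨j0, hj0⟩ := hne
  have k0 := key j0 hj0
  refine ⟨by omega, ?_⟩
  rcases Nat.lt_or_ge 1 r with h | h
  · exact Or.inl h
  · right
    have hr1 : r = 1 := by omega
    refine ⟨hr1, ?_⟩
    have hconst : ∀ j ∈ T, b j = b j0 := by
      intro j hj
      have k1 := key j hj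
      have s0 := Finset.add_sum_erase T b hj0
      have s1 := Finset.add_sum_erase T b hj
      omega
    have hsum : ∑ l ∈ T.erase j0, b l = (q + 2) * b j0 := by
      rw [Finset.sum_congr rfl fun l hl => hconst l (Finset.mem_of_mem_erase hl), Finset.sum_const,
        Finset.card_erase_of_mem hj0, hT, smul_eq_mul]
      rfl
    have hi' : i = 1 + (q + 2) * b j0 := by omega
    rw [hi', Nat.add_mul_mod_self_left, Nat.mod_eq_of_lt (by omega)]

/-- minimal families with `q + 2` terms for the element `n` -/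
theorem card_eq' {s : ℕ} (hn : n = q * k + r + 1) (hq : 1 ≤ q) (hr : r < k)
    {a : Fin s → ℕ} {T : Finset (Fin s)} (ha : ∀ j, a j ∈ Gam n k)
    (hd : Dvd (Gam n k) (n + 0) (∑ j ∈ T, a j))
    (hmin : ∀ j ∈ T, ¬ Dvd (Gam n k) (n + 0) (∑ l ∈ T.erase j, a l)) (hT : T.card = q + 2) :
    2 ≤ r ∨ (r = 1 ∧ k % (q + 1) = 1) := by
  obtain ⟨b, hb, hz⟩ := min_family ha hd hmin
  have hne : T.Nonempty := Finset.card_pos.1 (by omega)
  have hqk : (q + 1) * k = q * k + k := by ring
  have e2 : (T.card - 1) * n = q * n + n := by rw [hT]; simp; ring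
  have e3 : (q + 1) * n = q * n + n := by ring
  have e4 : q * (n + k) = q * n + q * k := by ring
  have key : ∀ j ∈ T, q * k < ∑ l ∈ T.erase j, b l ∧ ∑ l ∈ T.erase j, b l ≤ q * k + r := by
    intro j hj
    constructor
    · by_contra h
      push Not at h
      refine hz j hj (q * n + ∑ l ∈ T.erase j, b l) ?_ (by omega)
      exact mem_of q _ (by omega) (by omega)
    · by_contra h
      push Not at h
      refine hz j hj (q * n + ∑ l ∈ T.erase j, b l) ?_ (by omega)
      exact big (q := q) (by omega) (by omega) (by omega)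
  obtain ⟨j0, hj0⟩ := hne
  have k0 := key j0 hj0
  rcases Nat.lt_or_ge 1 r with h | h
  · exact Or.inl h
  · right
    have hr1 : r = 1 := by omega
    refine ⟨hr1, ?_⟩
    have hconst : ∀ j ∈ T, b j = b j0 := by
      intro j hj
      have k1 := key j hj
      have s0 := Finset.add_sum_erase T b hj0
      have s1 := Finset.add_sum_erase T b hj
      omega
    have hsum : ∑ l ∈ T.erase j0, b l = (q + 1) * b j0 := by
      rw [Finset.sum_congr rfl fun l hl => hconst l (Finset.mem_of_mem_erase hl), Finset.sum_const,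
        Finset.card_erase_of_mem hj0, hT, smul_eq_mul]
      rfl
    have h1 : (q + 1) * b j0 = q * k + 1 := by omega
    have h2 : b j0 ≤ k := by
      by_contra hlt
      push Not at hlt
      have := Nat.mul_le_mul_left (q + 1) hlt
      have e : (q + 1) * (k + 1) = q * k + k + q + 1 := by ring
      simp only [Nat.succ_eq_add_one] at this
      omega
    obtain ⟨c, hc⟩ := Nat.exists_eq_add_of_le h2
    have h3 : (q + 1) * k = (q + 1) * b j0 + (q + 1) * c := by rw [hc]; ring
    have h4 : k = 1 + (q + 1) * c := by omega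
    rw [h4, Nat.add_mul_mod_self_left, Nat.mod_eq_of_lt (by omega)]

/-- sums over the test families -/
theorem sum_test (V ρ e : ℕ) (h : ρ ≤ V) :
    ∑ j : Fin V, (e + if (j : ℕ) < ρ then 1 else 0) = V * e + ρ := by
  rw [Finset.sum_add_distrib, Finset.sum_const, Finset.card_univ, Fintype.card_fin, smul_eq_mul,
    Finset.sum_ite, Finset.sum_const_zero, add_zero, Finset.sum_const, smul_eq_mul, mul_one]
  congr 1
  have : (Finset.univ.filter fun j : Fin V => (j : ℕ) < ρ).card = ρ := by
    rw [Fin.card_filter_val_lt]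
    omega
  exact this

theorem lower_test {x V e ρ m : ℕ} (hρ : ρ ≤ V) (h0 : n ≤ e) (h1 : e ≤ n + k)
    (h2 : ρ = 0 ∨ e + 1 ≤ n + k) (hd : ∃ z ∈ Gam n k, V * e + ρ = x + z)
    (hn0 : ρ < V → ∀ z ∈ Gam n k, V * e + ρ ≠ x + z + e)
    (hn1 : 0 < ρ → ∀ z ∈ Gam n k, V * e + ρ ≠ x + z + (e + 1))
    (hm : OmegaProp (Gam n k) x m) : V ≤ m := by
  refine lower (fun j : Fin V => e + if (j : ℕ) < ρ then 1 else 0) ?_ ?_ ?_ hm
  · intro j
    apply AddSubmonoid.subset_closure
    by_cases h : (j : ℕ) < ρ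
    · simp only [h, if_true]
      exact ⟨by omega, by omega⟩
    · simp only [h, if_false]
      exact ⟨by omega, by omega⟩
  · rw [sum_test V ρ e hρ]
    exact hd
  · intro j hdj
    obtain ⟨z, hz, he⟩ := hdj
    have hs := Finset.add_sum_erase (Finset.univ : Finset (Fin V))
      (fun j : Fin V => e + if (j : ℕ) < ρ then 1 else 0) (Finset.mem_univ j)
    rw [he, sum_test V ρ e hρ] at hs
    have hj := j.2
    by_cases h : (j : ℕ) < ρ
    · simp only [h, if_true] at hs
      exact hn1 (by omega) z hz (by omega)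
    · simp only [h, if_false] at hs
      exact hn0 (by omega) z hz (by omega)

theorem lower1 {i a ρ m : ℕ} (hn : n = q * k + r + 1) (hr : r < k) (hr1 : 1 ≤ r) (hi : i ≤ k)
    (h : i = (q + 2) * a + ρ + 1) (hρ : ρ < q + 2) (hr2 : 2 ≤ r ∨ ρ = 0)
    (hm : OmegaProp (Gam n k) (n + i) m) : q + 3 ≤ m := by
  have e1 : (q + 3) * (n + a) + ρ = (q + 1) * n + n + n + a + (i - 1) := by
    rw [h, Nat.add_sub_cancel]; ring
  have e3 : (q + 1) * n = q * n + n := by ring
  have e4 : q * (n + k) = q * n + q * k := by ring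
  have e5 : (q + 1) * k = q * k + k := by ring
  have ha : a ≤ (q + 2) * a := Nat.le_mul_of_pos_left _ (by omega)
  refine lower_test (V := q + 3) (e := n + a) (ρ := ρ) (by omega) (by omega) (by omega)
    (by omega) ?_ ?_ ?_ hm
  · refine ⟨(q + 1) * n + n + a - 1, big (q := q) (by omega) (by omega) (by omega), by omega⟩
  · intro _ z hz he
    refine not_mem q ?_ ?_ hz
    · omega
    · omega
  · intro _ z hz he
    refine not_mem q ?_ ?_ hz
    · omega
    · omega

theorem lower2 {i m : ℕ} (hn : n = q * k + r + 1) (hq : 1 ≤ q) (hi : i ≤ k)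
    (h : r + 1 ≤ i) (hm : OmegaProp (Gam n k) (n + i) m) : q + 2 ≤ m := by
  obtain ⟨p, rfl⟩ := Nat.exists_eq_add_of_le' hq
  have e1 : (p + 1 + 2) * n = p * n + n + n + n := by ring
  have e2 : (p + 1) * n = p * n + n := by ring
  have e3 : (p + 1) * k = p * k + k := by ring
  have e4 : p * (n + k) = p * n + p * k := by ring
  have e5 : (p + 1) * (n + k) = p * n + p * k + n + k := by ring
  refine lower_test (V := p + 1 + 2) (e := n) (ρ := 0) (by omega) (by omega) (by omega)
    (by omega) ?_ ?_ ?_ hm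
  · refine ⟨p * n + n + n - i, mem_of (p + 1) _ (by omega) (by omega), by omega⟩
  · intro _ z hz he
    refine not_mem p ?_ ?_ hz
    · omega
    · omega
  · intro h0
    omega

theorem lower3 {a ρ m : ℕ} (hn : n = q * k + r + 1) (hr : r < k) (hr1 : 1 ≤ r)
    (h : k = (q + 1) * a + ρ + 1) (hρ : ρ < q + 1) (hr2 : 2 ≤ r ∨ ρ = 0)
    (hm : OmegaProp (Gam n k) (n + 0) m) : q + 2 ≤ m := by
  have e0 : (q + 1) * a = q * a + a := by ring
  obtain ⟨ρ', hρ'⟩ := Nat.exists_eq_add_of_le (show ρ ≤ q + 2 by omega)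
  have e1 : (q + 2) * (n + q * a + ρ) + ρ' = q * n + n + n + q * a + ρ + q * k + 2 := by
    have : (q + 2) * (n + q * a + ρ) + (ρ + ρ') =
      q * n + n + n + q * a + ρ + q * ((q + 1) * a + ρ + 1) + 2 + ρ := by
      rw [← hρ']; ring
    rw [← h] at this
    omega
  have e3 : (q + 1) * n = q * n + n := by ring
  have e4 : q * (n + k) = q * n + q * k := by ring
  have e5 : (q + 1) * k = q * k + k := by ring
  refine lower_test (V := q + 2) (e := n + q * a + ρ) (ρ := ρ') (by omega) (by omega) (by omega)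
    (by omega) ?_ ?_ ?_ hm
  · refine ⟨q * n + n + q * a + ρ + q * k + 2, big (q := q) (by omega) (by omega) (by omega),
      by omega⟩
  · intro _ z hz he
    refine not_mem q ?_ ?_ hz
    · omega
    · omega
  · intro _ z hz he
    refine not_mem q ?_ ?_ hz
    · omega
    · omega

theorem lower4 {m : ℕ} (hn : n = q * k + r + 1) (hq : 1 ≤ q) (hr : r < k)
    (hm : OmegaProp (Gam n k) (n + 0) m) : q + 1 ≤ m := by
  obtain ⟨p, rfl⟩ := Nat.exists_eq_add_of_le' hq
  have e2 : (p + 1 + 1) * n = p * n + n + n := by ring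
  have e3 : (p + 1) * k = p * k + k := by ring
  have e6 : (p + 1 + 1) * k = p * k + k + k := by ring
  have e4 : p * (n + k) = p * n + p * k := by ring
  have e5 : (p + 1 + 1) * (n + k) = p * n + p * k + n + k + n + k := by ring
  refine lower_test (V := p + 1 + 1) (e := n + k) (ρ := 0) (by omega) (by omega) (by omega)
    (by omega) ?_ ?_ ?_ hm
  · refine ⟨p * n + n + p * k + k + k, big (q := p + 1) (by omega) (by omega) (by omega),
      by omega⟩
  · intro _ z hz he
    refine not_mem p ?_ ?_ hz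
    · omega
    · rw [show (p + 1) * n = p * n + n by ring]
      omega
  · intro h0
    omega

/-- the value of `ω(n + i)` -/
theorem omega_eq {i : ℕ} (hn : n = q * k + r + 1) (hq : 1 ≤ q) (hr : r < k) (hi : i ≤ k) :
    IsLeast {m | OmegaProp (Gam n k) (n + i) m}
      (if i = 0 then
        if r = 0 ∨ (r = 1 ∧ k % (q + 1) ≠ 1) then q + 1 else q + 2
      else
        if r = 0 ∨ (r = 1 ∧ i % (q + 2) ≠ 1) then q + 2 else q + 3) := by
  split_ifs with h0 h1 h1
  · subst h0
    refine ⟨upper fun s a T ha hd hmin => ?_, fun m hm => lower4 hn hq hr hm⟩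
    by_contra hlt
    have c1 := card_le hn hq hr hi ha hd hmin
    rcases (show T.card = q + 3 ∨ T.card = q + 2 by omega) with h | h
    · have := card_eq hn hq hr hi ha hd hmin h
      omega
    · have := card_eq' hn hq hr ha hd hmin h
      omega
  · subst h0
    refine ⟨upper fun s a T ha hd hmin => ?_, fun m hm => ?_⟩
    · by_contra hlt
      have c1 := card_le hn hq hr hi ha hd hmin
      have := card_eq hn hq hr hi ha hd hmin (by omega)
      omega
    · have hk1 : k = (q + 1) * ((k - 1) / (q + 1)) + (k - 1) % (q + 1) + 1 := by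
        rw [Nat.div_add_mod]; omega
      refine lower3 hn hr (by omega) hk1 (Nat.mod_lt _ (by omega)) ?_ hm
      by_cases hr2 : 2 ≤ r
      · exact Or.inl hr2
      · right
        have hr1 : r = 1 := by omega
        have hk2 : k % (q + 1) = 1 := by
          by_contra hne
          exact h1 (Or.inr ⟨hr1, hne⟩)
        have hd2 := Nat.div_add_mod k (q + 1)
        rw [hk2] at hd2
        rw [show k - 1 = (q + 1) * (k / (q + 1)) by omega, Nat.mul_mod_right]
  · refine ⟨upper fun s a T ha hd hmin => ?_, fun m hm => ?_⟩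
    · by_contra hlt
      have c1 := card_le hn hq hr hi ha hd hmin
      have := card_eq hn hq hr hi ha hd hmin (by omega)
      omega
    · by_cases hri : r + 1 ≤ i
      · exact lower2 hn hq hi hri hm
      · exfalso
        have hr1 : r = 1 := by omega
        have hi1 : i = 1 := by omega
        subst hi1
        rw [Nat.mod_eq_of_lt (by omega)] at h1
        omega
  · refine ⟨upper fun s a T ha hd hmin => card_le hn hq hr hi ha hd hmin, fun m hm => ?_⟩
    have hk1 : i = (q + 2) * ((i - 1) / (q + 2)) + (i - 1) % (q + 2) + 1 := by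
      rw [Nat.div_add_mod]; omega
    refine lower1 hn hr (by omega) hi hk1 (Nat.mod_lt _ (by omega)) ?_ hm
    by_cases hr2 : 2 ≤ r
    · exact Or.inl hr2
    · right
      have hr1 : r = 1 := by omega
      have hk2 : i % (q + 2) = 1 := by
        by_contra hne
        exact h1 (Or.inr ⟨hr1, hne⟩)
      have hd2 := Nat.div_add_mod i (q + 2)
      rw [hk2] at hd2
      rw [show i - 1 = (q + 2) * (i / (q + 2)) by omega, Nat.mul_mod_right]

theorem main (n k i : ℕ) (hk : 1 ≤ k) (hkn : k ≤ n - 1) (hi : i ≤ k) :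
    IsLeast {m | OmegaProp (Gam n k) (n + i) m} (value n k i) := by
  have hn : n = (n - 1) / k * k + (n - 1) % k + 1 := by
    rw [mul_comm, Nat.div_add_mod]; omega
  have hq : 1 ≤ (n - 1) / k := (Nat.le_div_iff_mul_le hk).2 (by omega)
  exact omega_eq hn hq (Nat.mod_lt _ hk) hi

end Q191.Omega
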